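import Pool.Agent.Helper4.HD.Goals

/-!
# Project HD (MP_bb32d1_al), packet DGG (helper26)

`∂_j gg (m+1) = - c ff j m`.
-/

set_option autoImplicit false

namespace Pool.Agent.Helper26.HD

open MvPolynomial Finset
open Pool.Agent.Helper4.HD

theorem gg_zero (n : ℕ) : gg n 0 = 1 := by
  rw [gg]

/-- `(m+1) gg (m+1) = - c ∑_{a ≤ m} p_{a+1} gg (m-a)`. -/
theorem gg_rec (n m : ℕ) :
    ((m : P n) + 1) * gg n (m + 1) =
      - (C (cc n) * ∑ a ∈ range (m + 1), pw n (a + 1) * gg n (m - a)) := by
  rw [gg, Finset.sum_range (fun a => pw n (a + 1) * gg n (m - a))]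
  have h : ((m : ℂ) + 1) ≠ 0 := by
    exact_mod_cast Nat.succ_ne_zero m
  have h2 : ((m : P n) + 1) * C (-(cc n) / ((m : ℂ) + 1)) = - C (cc n) := by
    have : ((m : P n) + 1) = C ((m : ℂ) + 1) := by simp
    rw [this, ← C_mul, mul_div_cancel₀ _ h, C_neg]
  rw [← mul_assoc, h2, neg_mul]

theorem pd_pw {n : ℕ} (j : Fin n) (a : ℕ) :
    pderiv j (pw n (a + 1)) = ((a : P n) + 1) * X j ^ a := by
  unfold pw
  rw [map_sum, Finset.sum_eq_single j]
  · rw [Derivation.leibniz_pow, pderiv_X_self]
    simp
  · intro b _ hb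
    rw [Derivation.leibniz_pow, pderiv_X_of_ne hb]
    simp
  · intro h
    exact absurd (mem_univ j) h

theorem dgg0 (n : ℕ) (j : Fin n) : ∀ m : ℕ, pderiv j (gg n (m + 1)) = - (C (cc n) * ff j m) := by
  intro m
  induction m using Nat.strong_induction_on with
  | _ m ih =>
    have h1 : pderiv j (((m : P n) + 1) * gg n (m + 1)) = ((m : P n) + 1) * pderiv j (gg n (m + 1)) := by
      rw [Derivation.leibniz]
      simp
    have hne : ((m : P n) + 1) ≠ 0 := by
      exact_mod_cast Nat.succ_ne_zero m
    apply mul_left_cancel₀ hne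
    rw [← h1, gg_rec, map_neg, Derivation.leibniz, pderiv_C, smul_zero, add_zero, smul_eq_mul,
      map_sum]
    have h2 : ∑ a ∈ range (m + 1), pderiv j (pw n (a + 1) * gg n (m - a)) =
        ∑ a ∈ range (m + 1), ((a : P n) + 1) * X j ^ a * gg n (m - a) +
        ∑ a ∈ range (m + 1), pw n (a + 1) * pderiv j (gg n (m - a)) := by
      rw [← Finset.sum_add_distrib]
      refine Finset.sum_congr rfl fun a _ => ?_
      rw [Derivation.leibniz, pd_pw, smul_eq_mul, smul_eq_mul]
      ring
    have h3 : ∑ a ∈ range (m + 1), pw n (a + 1) * pderiv j (gg n (m - a)) =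
        ∑ b ∈ range m, X j ^ b * (((m - b : ℕ) : P n) * gg n (m - b)) := by
      rw [Finset.sum_range_succ, Nat.sub_self, gg_zero]
      rw [Derivation.map_one_eq_zero, mul_zero, add_zero]
      have h4 : ∀ a ∈ range m, pw n (a + 1) * pderiv j (gg n (m - a)) =
          ∑ b ∈ range (m - a), - (C (cc n)) * (X j ^ b * (pw n (a + 1) * gg n (m - 1 - a - b))) := by
        intro a ha
        rw [mem_range] at ha
        have e : m - a = (m - 1 - a) + 1 := by omega
        rw [e, ih (m - 1 - a) (by omega)]
        unfold ff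
        rw [Finset.mul_sum, mul_neg, Finset.mul_sum, ← Finset.sum_neg_distrib]
        refine Finset.sum_congr rfl fun b _ => ?_
        ring
      rw [Finset.sum_congr rfl h4]
      rw [Finset.sum_comm' (t' := range m) (s' := fun b => range (m - b))
        (h := by intro a b; simp only [mem_range]; omega)]
      refine Finset.sum_congr rfl fun b hb => ?_
      rw [mem_range] at hb
      have e : m - b = (m - 1 - b) + 1 := by omega
      rw [e]
      push_cast
      rw [gg_rec, Finset.mul_sum, mul_neg, Finset.mul_sum, ← Finset.sum_neg_distrib]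
      refine Finset.sum_congr rfl fun a ha => ?_
      have e2 : m - 1 - a - b = m - 1 - b - a := by omega
      rw [e2]
      ring
    rw [h2, h3]
    have h5 : ∑ b ∈ range m, X j ^ b * (((m - b : ℕ) : P n) * gg n (m - b)) =
        ∑ b ∈ range (m + 1), X j ^ b * (((m - b : ℕ) : P n) * gg n (m - b)) := by
      rw [Finset.sum_range_succ]
      simp
    rw [h5, ← Finset.sum_add_distrib]
    have h6 : ∑ a ∈ range (m + 1), (((a : P n) + 1) * X j ^ a * gg n (m - a) +
        X j ^ a * (((m - a : ℕ) : P n) * gg n (m - a))) = ((m : P n) + 1) * ff j m := by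
      unfold ff
      rw [Finset.mul_sum]
      refine Finset.sum_congr rfl fun a ha => ?_
      rw [mem_range] at ha
      have e : ((m - a : ℕ) : P n) = (m : P n) - a := by
        rw [Nat.cast_sub (by omega)]
      rw [e]
      ring
    rw [h6]
    ring

theorem dgg : S_DGG := by
  intro n m j
  show pderiv j (gg n (m + 1)) = _
  rw [dgg0, smul_eq_C_mul]

end Pool.Agent.Helper26.HD
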