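import Pool.Agent.Helper80.HD.GoalsA

/-!
# Project HD, packet IND: at most `k` generic blocks are algebraically independent over `K`
-/

set_option autoImplicit false

open MvPolynomial

noncomputable section

namespace Pool.Agent.Helper26.HD

open Pool.Agent.Helper80.HD

/-- one block -/
theorem block {E M : Type} [Field E] [Infinite E] [Field M] [Algebra E M] [Algebra E ℂ]
    [Algebra M ℂ] [IsScalarTower E M ℂ] {J : Type} [Fintype J] [DecidableEq J] (s : J → M)
    (c : J → ℂ) (hc : AlgebraicIndependent M c) (j1 : J)
    (hj1 : ¬ IsAlgebraic E (algebraMap M ℂ (s j1))) :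
    AlgebraicIndependent E
      (fun o : Option J => o.elim (-∑ j, c j * algebraMap M ℂ (s j)) c) := by
  rw [algebraicIndependent_iff]
  intro P hP
  by_contra hP0
  -- the polynomial vanishes after the substitution of elements of `E`
  have h1 : ∀ e : J → E, aeval (fun o : Option J => o.elim
      (-∑ j, algebraMap E ℂ (e j) * algebraMap M ℂ (s j)) (fun j => algebraMap E ℂ (e j))) P = 0 := by
    intro e
    let g : Option J → MvPolynomial J M := fun o => o.elim (-∑ j, X j * C (s j)) X
    have h2 : ((aeval c : MvPolynomial J M →ₐ[M] ℂ).restrictScalars E).comp (aeval g) =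
        aeval (fun o : Option J => o.elim (-∑ j, c j * algebraMap M ℂ (s j)) c) := by
      apply MvPolynomial.algHom_ext
      intro o
      cases o <;> simp [g]
    have h3 : ((aeval (fun j => algebraMap E ℂ (e j)) :
        MvPolynomial J M →ₐ[M] ℂ).restrictScalars E).comp (aeval g) =
        aeval (fun o : Option J => o.elim
          (-∑ j, algebraMap E ℂ (e j) * algebraMap M ℂ (s j)) (fun j => algebraMap E ℂ (e j))) := by
      apply MvPolynomial.algHom_ext
      intro o
      cases o <;> simp [g]
    have h4 : aeval c (aeval g P) = 0 := by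
      rw [← hP, ← h2]; rfl
    have h5 : aeval g P = 0 := (algebraicIndependent_iff.mp hc) _ h4
    rw [← h3]
    show aeval (fun j => algebraMap E ℂ (e j)) (aeval g P) = 0
    rw [h5, map_zero]
  set P' := optionEquivLeft E J P with hP'
  have hP'0 : P' ≠ 0 := by
    rw [hP']
    exact fun h => hP0 ((map_eq_zero_iff _ (optionEquivLeft E J).injective).mp h)
  set a := P'.leadingCoeff with ha
  have ha0 : a ≠ 0 := Polynomial.leadingCoeff_ne_zero.mpr hP'0
  have h6 : ∀ (e : J → E) (y : ℂ), Polynomial.aeval y (P'.map (eval e)) =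
      aeval (fun o : Option J => o.elim y (fun j => algebraMap E ℂ (e j))) P := by
    intro e y
    have h7 : ((Polynomial.aeval y : Polynomial E →ₐ[E] ℂ).comp
        (Polynomial.mapAlgHom (aeval e : MvPolynomial J E →ₐ[E] E))).comp
        (optionEquivLeft E J).toAlgHom =
        aeval (fun o : Option J => o.elim y (fun j => algebraMap E ℂ (e j))) := by
      apply MvPolynomial.algHom_ext
      intro o
      cases o <;> simp
    rw [← h7]
    show _ = Polynomial.aeval y (Polynomial.mapAlgHom (aeval e : MvPolynomial J E →ₐ[E] E) P')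
    rfl
  have h8 : ∀ e : J → E, eval e a ≠ 0 →
      IsAlgebraic E (∑ j, algebraMap E ℂ (e j) * algebraMap M ℂ (s j)) := by
    intro e he
    have h9 : IsAlgebraic E (-∑ j, algebraMap E ℂ (e j) * algebraMap M ℂ (s j)) := by
      refine ⟨P'.map (eval e), ?_, ?_⟩
      · intro h
        apply he
        have := congrArg (fun q => q.coeff P'.natDegree) h
        simpa using this
      · rw [h6, h1]
    simpa using h9.neg
  -- a point where the leading coefficient does not vanish
  obtain ⟨e, he⟩ : ∃ e : J → E, eval e a ≠ 0 := by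
    by_contra hcon
    push Not at hcon
    exact ha0 (MvPolynomial.funext fun e => by rw [hcon e, map_zero])
  let q : Polynomial E := aeval
    (fun j => Polynomial.C (e j) + if j = j1 then Polynomial.X else 0) a
  have hq : ∀ t, q.eval t = eval (fun j => e j + if j = j1 then t else 0) a := by
    intro t
    have : (Polynomial.aeval t : Polynomial E →ₐ[E] E).comp (aeval
        (fun j => Polynomial.C (e j) + if j = j1 then Polynomial.X else 0)) =
        aeval (fun j => e j + if j = j1 then t else 0) := by
      apply MvPolynomial.algHom_ext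
      intro j
      by_cases hj : j = j1 <;> simp [hj]
    have h10 := AlgHom.congr_fun this a
    simpa [q, Polynomial.coe_aeval_eq_eval] using h10
  obtain ⟨t, ht⟩ : ∃ t, (q * Polynomial.X).eval t ≠ 0 := by
    by_contra hcon
    push Not at hcon
    have h11 : q * Polynomial.X = 0 := Polynomial.funext fun t => by
      rw [hcon t, Polynomial.eval_zero]
    rcases mul_eq_zero.mp h11 with h12 | h12
    · have := hq 0
      rw [h12] at this
      apply he
      simpa using this.symm
    · exact Polynomial.X_ne_zero h12
  rw [Polynomial.eval_mul, Polynomial.eval_X, mul_ne_zero_iff, hq] at ht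
  obtain ⟨ht1, ht2⟩ := ht
  have h13 := (h8 _ ht1).sub (h8 _ he)
  have h14 : (∑ j, algebraMap E ℂ (e j + if j = j1 then t else 0) * algebraMap M ℂ (s j)) -
      ∑ j, algebraMap E ℂ (e j) * algebraMap M ℂ (s j) =
      algebraMap E ℂ t * algebraMap M ℂ (s j1) := by
    rw [← Finset.sum_sub_distrib, Finset.sum_eq_single j1]
    · rw [if_pos rfl, map_add]; ring
    · intro j _ hj
      rw [if_neg hj, add_zero, sub_self]
    · intro h; exact absurd (Finset.mem_univ _) h
  rw [h14] at h13
  apply hj1
  have h15 := (isAlgebraic_algebraMap (A := ℂ) (t⁻¹ : E)).mul h13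
  rwa [← mul_assoc, ← map_mul, inv_mul_cancel₀ ht2, map_one, one_mul] at h15

/-- the closure in the algebraic matroid -/
theorem mem_cl {K : Type} [Field K] [Algebra K ℂ] (s : Set ℂ) (a : ℂ) :
    a ∈ (AlgebraicIndependent.matroid K ℂ).closure s ↔ IsAlgebraic (Algebra.adjoin K s) a := by
  rw [AlgebraicIndependent.matroid_closure_eq]
  rfl

/-- some ratio of the coordinates of the new point is transcendental over `K(U)` -/
theorem exists_transcendental (K : Type) [Field K] [Algebra K ℂ] (F : IntermediateField K ℂ)
    (r k N : ℕ) (hrk : r < k) (z : Fin r → Fin (N + 1) → ℂ) (p : Fin r → Fin (N + 1))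
    (c : Fin r × Fin (N + 1) → ℂ) (htr : Algebra.trdeg K F = k) (hc : AlgebraicIndependent F c)
    (x : Fin (N + 1) → ℂ) (j0 : Fin (N + 1)) (hx : x j0 ≠ 0) (hbig : Big K F x) :
    ∃ j, ¬ IsAlgebraic (LK K (gen z p c)) (x j / x j0) := by
  by_contra hcon
  push Not at hcon
  let Mt := AlgebraicIndependent.matroid K ℂ
  let X := Set.range (gen z p c)
  have h1 : ∀ j, x j / x j0 ∈ Mt.closure X := fun j => by
    rw [mem_cl]
    exact IntermediateField.isAlgebraic_adjoin_iff.mp (hcon j)
  have h2 : {c | ∃ i j, c = x i / x j} ⊆ Mt.closure X := by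
    rintro _ ⟨i, j, rfl⟩
    have hi := (mem_cl _ _).mp (h1 i)
    have hj := (mem_cl _ _).mp (h1 j)
    rw [mem_cl]
    have h3 : x i / x j = (x i / x j0) * (x j / x j0)⁻¹ := by
      by_cases hj0 : x j = 0
      · simp [hj0]
      · field_simp
    rw [h3]
    exact hi.mul hj.inv
  have h4 : ∀ a ∈ F, a ∈ Mt.closure X := by
    intro a ha
    have h5 : IsAlgebraic (ratioField K x) a := hbig.2.2 a ha
    have h6 : a ∈ Mt.closure {c | ∃ i j, c = x i / x j} := by
      rw [mem_cl]
      exact IntermediateField.isAlgebraic_adjoin_iff.mp h5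
    have h7 := Mt.closure_subset_closure h2 h6
    rwa [Mt.closure_closure] at h7
  obtain ⟨ι, b, hb⟩ := exists_isTranscendenceBasis' K F
  have hcard : Cardinal.mk ι = k := by rw [hb.cardinalMk_eq_trdeg, htr]
  have hfin : Finite ι := by
    rw [← Cardinal.lt_aleph0_iff_finite, hcard]
    exact Cardinal.natCast_lt_aleph0
  have hcard' : Nat.card ι = k := by
    rw [Nat.card, hcard, Cardinal.toNat_natCast]
  let c'' : Fin r × Fin N → ℂ := fun q => c (q.1, (p q.1).succAbove q.2)
  have hc'' : AlgebraicIndependent F c'' := by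
    refine hc.comp (fun q : Fin r × Fin N => (q.1, (p q.1).succAbove q.2)) ?_
    rintro ⟨i, j⟩ ⟨i', j'⟩ h
    simp only [Prod.mk.injEq] at h
    obtain ⟨h7, h8⟩ := h
    subst h7
    rw [Fin.succAbove_right_inj] at h8
    rw [h8]
  have hsum : AlgebraicIndependent K (Sum.elim c'' (algebraMap F ℂ ∘ b)) :=
    AlgebraicIndependent.sumElim_comp hb.1 hc''
  have hI : Mt.Indep (Set.range (Sum.elim c'' (algebraMap F ℂ ∘ b))) := by
    rw [AlgebraicIndependent.matroid_indep_iff]
    exact hsum.to_subtype_range
  have hsub : Set.range (Sum.elim c'' (algebraMap F ℂ ∘ b)) ⊆ Mt.closure X := by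
    rintro _ ⟨q | i, rfl⟩
    · refine Mt.subset_closure X ?_ ⟨(q.1, (p q.1).succAbove q.2), ?_⟩
      · exact Set.subset_univ _
      · simp [gen, c'', Fin.succAbove_ne]
    · exact h4 _ (b i).2
  have h9 := hI.encard_le_eRk_of_subset hsub
  rw [Mt.eRk_closure_eq] at h9
  have h10 := h9.trans (Mt.eRk_le_encard X)
  have h11 : (Set.range (Sum.elim c'' (algebraMap F ℂ ∘ b))).encard = (r * N + k : ℕ) := by
    rw [← Set.image_univ, hsum.injective.injOn.encard_image, Set.encard_univ, ENat.card_eq_coe_natCard,
      Nat.card_sum, Nat.card_prod, hcard']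
    simp
  have h12 : X.encard ≤ (r * (N + 1) : ℕ) := by
    show (Set.range (gen z p c)).encard ≤ _
    rw [← Set.image_univ]
    refine (Set.encard_image_le _ _).trans ?_
    rw [Set.encard_univ, ENat.card_eq_coe_natCard, Nat.card_prod]
    simp
  rw [h11] at h10
  have h13 : ((r * N + k : ℕ) : ℕ∞) ≤ ((r * (N + 1) : ℕ) : ℕ∞) := h10.trans h12
  have h14 : r * N + k ≤ r * (N + 1) := by exact_mod_cast h13
  rw [mul_add, mul_one] at h14
  omega

/-- the new block is algebraically independent over `K(U)` -/
theorem new_block (K : Type) [Field K] [CharZero K] [Algebra K ℂ] (F : IntermediateField K ℂ)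
    (r N : ℕ) (z : Fin r → Fin (N + 1) → ℂ) (p : Fin r → Fin (N + 1))
    (c : Fin r × Fin (N + 1) → ℂ) (hz : ∀ i, ratioField K (z i) ≤ F)
    (x : Fin (N + 1) → ℂ) (j0 : Fin (N + 1)) (d : Fin (N + 1) → ℂ)
    (hd : AlgebraicIndependent (Algebra.adjoin F (Set.range c)) (fun j : {j // j ≠ j0} => d j))
    (hx : ratioField K x ≤ F)
    (htr : ∃ j, ¬ IsAlgebraic (LK K (gen z p c)) (x j / x j0)) (hx0 : x j0 ≠ 0) :
    AlgebraicIndependent (LK K (gen z p c)) (fun j : Fin (N + 1) =>
      if j = j0 then -∑ j ∈ Finset.univ.erase j0, d j * (x j / x j0) else d j) := by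
  classical
  have hd' : AlgebraicIndependent (IntermediateField.adjoin F (Set.range c))
      (fun j : {j // j ≠ j0} => d j) := IntermediateField.algebraicIndependent_adjoin_iff.mpr hd
  let M : IntermediateField K ℂ :=
    (IntermediateField.adjoin F (Set.range c)).restrictScalars K
  have hdM : AlgebraicIndependent M (fun j : {j // j ≠ j0} => d j) := hd'
  have hFM : ∀ a ∈ F, a ∈ M := fun a ha =>
    (IntermediateField.adjoin F (Set.range c)).algebraMap_mem ⟨a, ha⟩
  have hcM : ∀ q, c q ∈ M := fun q =>
    IntermediateField.subset_adjoin F (Set.range c) (Set.mem_range_self q)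
  have hEM : LK K (gen z p c) ≤ M := by
    rw [IntermediateField.adjoin_le_iff]
    rintro _ ⟨q, rfl⟩
    show gen z p c q ∈ M
    unfold gen
    split_ifs with h
    · refine neg_mem (sum_mem fun j _ => mul_mem (hcM _) (hFM _ (hz q.1 ?_)))
      exact IntermediateField.subset_adjoin K _ ⟨j, p q.1, rfl⟩
    · exact hcM q
  let _ : Algebra (LK K (gen z p c)) M := (IntermediateField.inclusion hEM).toRingHom.toAlgebra
  have : IsScalarTower (LK K (gen z p c)) M ℂ := IsScalarTower.of_algebraMap_eq fun _ => rfl
  have : CharZero (LK K (gen z p c)) :=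
    charZero_of_injective_algebraMap (algebraMap K (LK K (gen z p c))).injective
  have : Infinite (LK K (gen z p c)) := Infinite.of_injective (fun n : ℕ => (n : LK K (gen z p c)))
    Nat.cast_injective
  obtain ⟨j1, hj1⟩ := htr
  have hj1' : j1 ≠ j0 := by
    rintro rfl
    apply hj1
    rw [div_self hx0]
    exact isAlgebraic_one
  have hs : ∀ j, x j / x j0 ∈ M := fun j => hFM _ (hx (IntermediateField.subset_adjoin K _ ⟨j, j0, rfl⟩))
  have key := block (E := LK K (gen z p c)) (M := M) (J := {j // j ≠ j0})
    (fun j => ⟨x j / x j0, hs j⟩) (fun j => d j) hdM ⟨j1, hj1'⟩ hj1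
  rw [← algebraicIndependent_equiv (Equiv.optionSubtypeNe j0)]
  convert key using 1
  funext o
  cases o with
  | none =>
    simp only [Function.comp_apply, Equiv.optionSubtypeNe_none, if_true, Option.elim_none, neg_inj]
    rw [Finset.sum_subtype (Finset.univ.erase j0) (p := fun j => j ≠ j0) (fun j => by simp)]
    rfl
  | some j =>
    simp only [Function.comp_apply, Equiv.optionSubtypeNe_some, Option.elim_some]
    rw [if_neg j.2]

/-- PACKET IND -/
theorem ind : S_IND := by
  intro K _ _ _ F r k N z p c hFG htr hr hzp hbig hc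
  induction r with
  | zero => exact algebraicIndependent_empty_type
  | succ r ih =>
    let f1 : Fin r × Fin (N + 1) → Fin (r + 1) × Fin (N + 1) := fun q => (q.1.castSucc, q.2)
    have hf1 : Function.Injective f1 := by
      rintro ⟨i, j⟩ ⟨i', j'⟩ h
      simp only [f1, Prod.mk.injEq, Fin.castSucc_inj] at h
      rw [h.1, h.2]
    let z' := fun i : Fin r => z i.castSucc
    let p' := fun i : Fin r => p i.castSucc
    let c' : Fin r × Fin (N + 1) → ℂ := fun q => c (q.1.castSucc, q.2)
    have hc' : AlgebraicIndependent F c' := hc.comp f1 hf1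
    have hu' := ih z' p' c' (by omega) (fun i => hzp _) (fun i => hbig _) hc'
    have htrans := exists_transcendental K F r k N (by omega) z' p' c' htr hc' (z (Fin.last r))
      (p (Fin.last r)) (hzp _) (hbig _)
    -- the last block of `c` is independent over `F(c')`
    let f2 : {j // j ≠ p (Fin.last r)} ⊕ (Fin r × Fin (N + 1)) → Fin (r + 1) × Fin (N + 1) :=
      Sum.elim (fun j => (Fin.last r, j.1)) f1
    have hf2 : Function.Injective f2 := by
      apply Function.Injective.sumElim
      · intro j j' h
        simp only [Prod.mk.injEq, true_and] at h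
        exact Subtype.ext h
      · exact hf1
      · intro j q h
        simp only [f1, Prod.mk.injEq] at h
        exact (Fin.castSucc_lt_last q.1).ne' h.1
    have h1 : AlgebraicIndependent F (c ∘ f2) := hc.comp f2 hf2
    have h2 : c ∘ f2 = Sum.elim (fun j : {j // j ≠ p (Fin.last r)} => c (Fin.last r, j.1)) c' := by
      funext s
      cases s <;> rfl
    rw [h2, AlgebraicIndependent.sumElim_iff] at h1
    have h3 := new_block K F r N z' p' c' (fun i => (hbig _).2.1) (z (Fin.last r))
      (p (Fin.last r)) (fun j => c (Fin.last r, j)) h1.2 (hbig _).2.1 htrans (hzp _)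
    have h4 := IntermediateField.algebraicIndependent_adjoin_iff.mp h3
    have h5 := hu'.sumElim h4
    let e : Fin (N + 1) ⊕ (Fin r × Fin (N + 1)) ≃ Fin (r + 1) × Fin (N + 1) :=
      Equiv.ofBijective (Sum.elim (fun j => (Fin.last r, j)) f1) (by
        constructor
        · apply Function.Injective.sumElim
          · intro j j' h
            simpa using h
          · exact hf1
          · intro j q h
            simp only [f1, Prod.mk.injEq] at h
            exact (Fin.castSucc_lt_last q.1).ne' h.1
        · rintro ⟨i, j⟩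
          refine Fin.lastCases ?_ (fun i => ?_) i
          · exact ⟨Sum.inl j, rfl⟩
          · exact ⟨Sum.inr (i, j), rfl⟩)
    rw [← algebraicIndependent_equiv e]
    convert h5 using 1
    funext s
    cases s with
    | inl j => rfl
    | inr q => rfl

end Pool.Agent.Helper26.HD
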